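import Pool.Agent.Y311.DN.Sym

/-!
# Pointwise convergence in density: commuting maps, linear exponents

`T_1, …, T_d` are arbitrary commuting invertible measure preserving maps of an arbitrary probability
space and `g_j(n) = T_1^(a_1j n) ⋯ T_d^(a_dj n)`. The averages over `[-N, N]` converge at almost
every point `x` off a subset of small density of the orbit of `x`, uniformly in all sufficiently
large `N` and all sufficiently long windows; the windows may be much shorter than `N`.
-/

set_option autoImplicit false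

open Filter Topology MeasureTheory
open scoped ENNReal

namespace Pool.Agent.Results.MP_4d8f14_an.DensityCommutingLinear

/-- `T^z = T_1^(z_1) ⋯ T_d^(z_d)`. -/
def pw {d : ℕ} {X : Type*} (T : Fin d → Equiv.Perm X) (z : Fin d → ℤ) : Equiv.Perm X :=
  (List.ofFn fun i => T i ^ z i).prod

/-- The averages over `|n| ≤ N` of `∏_j f_j (T_1^(a_j1 n) ⋯ T_d^(a_jd n) x)`. -/
noncomputable def avg {d m : ℕ} {X : Type*} (T : Fin d → Equiv.Perm X) (a : Fin m → Fin d → ℤ)
    (f : Fin m → X → ℂ) (N : ℕ) (x : X) : ℂ :=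
  (2 * (N : ℂ) + 1)⁻¹ * ∑ n ∈ Finset.Icc (-(N : ℤ)) N, ∏ j, f j (pw T (fun i => a j i * n) x)

/-- Let `T_1, …, T_d` be commuting invertible measure preserving maps of a probability space, let
`f_0, …, f_m ∈ L^∞` and let `a_0, …, a_m ∈ ℤ^d`. Let `u_1, …, u_q ∈ ℤ^d` be such that `a_1, …, a_m`
are integer combinations of them (no condition on `a_0`; the unit vectors are always allowed).
There is a bounded measurable `F`, the limit of the averages `A_N` in `L^2`, such that for almost
every `x` and all `ε > 0` there is `K` such that, whenever `N` and all the `L_s` are at least `K`,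
one has `|A_N - F| < ε` at the point `T^(c_1 u_1 + ⋯ + c_q u_q) x` for all but at most
`ε L_1 ⋯ L_q` of the `c ∈ [L_1] × ⋯ × [L_q]`. -/
theorem result (d m q : ℕ) {X : Type*} [MeasurableSpace X] (μ : Measure X)
    [IsProbabilityMeasure μ]
    (T : Fin d → Equiv.Perm X) (hTm : ∀ i, Measurable (T i).symm)
    (hT : ∀ i, MeasurePreserving (T i) μ μ) (hc : ∀ i j, Commute (T i) (T j))
    (a : Fin (m + 1) → Fin d → ℤ) (u : Fin q → Fin d → ℤ)
    (hu : ∀ j : Fin m, ∃ C : Fin q → ℤ, a j.succ = ∑ s, C s • u s)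
    (f : Fin (m + 1) → X → ℂ) (hf : ∀ j, MemLp (f j) ∞ μ) :
    ∃ (F : X → ℂ) (C : ℝ), Measurable F ∧ (∀ x, ‖F x‖ ≤ C) ∧
      Tendsto (fun N : ℕ => ∫ x, ‖avg T a f N x - F x‖ ^ 2 ∂μ) atTop (𝓝 0) ∧
      ∀ᵐ x ∂μ, ∀ ε : ℝ, 0 < ε → ∃ K : ℕ, ∀ (N : ℕ) (L : Fin q → ℕ), K ≤ N → (∀ s, K ≤ L s) →
        (((Fintype.piFinset (fun s => Finset.Icc 1 (L s))).filter fun c =>
          ε ≤ ‖avg T a f N (pw T (∑ s, ((c s : ℕ) : ℤ) • u s) x) -
            F (pw T (∑ s, ((c s : ℕ) : ℤ) • u s) x)‖).card : ℝ) ≤ ε * ∏ s, (L s : ℝ) := by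
  refine Pool.Agent.Y311.DN.sym_dens (fun z => z.elim (a 0) fun j => a j.succ) u hu
    (Pool.Agent.Y311.UB.act_prod hTm hT hc) (f := fun z => z.elim (f 0) fun j => f j.succ)
    (fun z => by
      rcases z with _ | j
      · exact hf 0
      · exact hf j.succ) fun N x => ?_
  rw [avg]
  congr 1
  refine Finset.sum_congr rfl fun n _ => ?_
  rw [Fintype.prod_option, Fin.prod_univ_succ]
  have h : ∀ w : Fin d → ℤ, (fun i => w i * n) = n • w := fun w => by
    funext i
    simp [mul_comm]
  simp only [h]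
  rfl

end Pool.Agent.Results.MP_4d8f14_an.DensityCommutingLinear
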