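import Pool.Agent.Y957.MC.Fin3

set_option autoImplicit false

/-!
# Multiple polynomial ergodic averages at almost all times of arbitrary flows

Let `τ_1, ..., τ_m` be measurable measure preserving flows on a probability space, with no relation between them
(they need not commute or generate a nilpotent group; they may also coincide), `P_1, ..., P_m` real polynomials of
positive degree and `f_1, ..., f_m` in `L^∞`. For Lebesgue almost every `(a_1, ..., a_m)` the averages over
`|n| ≤ N` of `∏ f_j (τ_j^(a_j P_j(n)) x)` converge for almost every `x`, and the limit is the product of the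
conditional expectations of the `f_j` on the invariant sets of the flows. For integer polynomials
`τ_j^(a_j P_j(n)) = T_j^(P_j(n))` with the time-`a_j` maps `T_j = τ_j^(a_j)`.

The second part is about commuting maps: for a measurable measure preserving action `σ` of `ℝ ^ d` and almost every
`(v_1, ..., v_m)` in `(ℝ ^ d) ^ m`, the averages of `∏ f_j (σ(v_j)^(P_j(n)) x)` converge almost everywhere for all
integer polynomials `P_j` of positive degree.

Proof (`Pool.Agent.Y957.MC`). One factor and arbitrary bounded weights: for almost every `x`, for EVERY bounded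
sequence `B` and almost every `a`, `(1/N) ∑ B(n) (f (τ^(a P(n)) x) - E(f|τ)(x)) → 0`. By Parseval in `log a` the mean
square over `a` in `[A, 2A]` is a sum over `k` of `|c_k(x)|² |β_k|²`, where the `c_k(x)` are the coefficients of
`s ↦ f(τ^(M e^s) x)` and `β_k = (1/N) ∑ B(n) P(n)^{2πik/Λ}`. For smooth coboundaries `f` the low and the very high
orders are negligible; for the others `E sup_k |c_k(x)|² ≤ C M^(-1/4)`, by stationarity, the Halász-Montgomery
inequality and an oscillatory integral with two logarithms, while Halász-Montgomery and van der Corput's method give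
`∑ |β_k|² ≤ C log N` over the `k` with `|β_k|² ≥ N^(-δ)`. The general case follows with a second moment estimate for
averages of nonnegative functions at the times `a P(n)`, and the product by Fubini's theorem.
-/

namespace Pool.Agent.Results.MP_4d8f14_an.GenericTimesOfFlows

open MeasureTheory Filter Finset

universe u

/-- a measurable measure preserving flow -/
structure IsFlow {X : Type u} [MeasurableSpace X] (μ : Measure X) (τ : ℝ → X → X) : Prop where
  meas : Measurable (fun p : ℝ × X => τ p.1 p.2)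
  zero : ∀ x, τ 0 x = x
  add : ∀ s t x, τ (s + t) x = τ s (τ t x)
  mp : ∀ t, MeasurePreserving (τ t) μ μ

/-- a measurable measure preserving action of `ℝ ^ d` -/
structure IsAction {X : Type u} [MeasurableSpace X] (μ : Measure X) {d : ℕ} (σ : (Fin d → ℝ) → X → X) : Prop where
  meas : Measurable (fun p : (Fin d → ℝ) × X => σ p.1 p.2)
  zero : ∀ x, σ 0 x = x
  add : ∀ s t x, σ (s + t) x = σ s (σ t x)
  mp : ∀ t, MeasurePreserving (σ t) μ μ

theorem result :
    (∀ (X : Type u) [MeasurableSpace X] (μ : Measure X) [IsProbabilityMeasure μ] (m : ℕ) (τ : Fin m → ℝ → X → X)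
      (P : Fin m → Polynomial ℝ) (f : Fin m → X → ℂ),
      (∀ j, IsFlow μ (τ j)) → (∀ j, 0 < (P j).natDegree) → (∀ j, AEStronglyMeasurable (f j) μ) →
      (∀ j, ∃ C : ℝ, ∀ᵐ x ∂μ, ‖f j x‖ ≤ C) →
      ∀ᵐ a : Fin m → ℝ, ∀ᵐ x ∂μ,
        Tendsto (fun N : ℕ => (1 / (2 * (N : ℂ) + 1)) * ∑ n ∈ Icc (-(N : ℤ)) N,
          ∏ j, f j (τ j (a j * (P j).eval (n : ℝ)) x)) atTop
          (nhds (∏ j, (μ[f j | ⨅ t : ℝ, MeasurableSpace.invariants (τ j t)]) x))) ∧
    (∀ (X : Type u) [MeasurableSpace X] (μ : Measure X) [IsProbabilityMeasure μ] (m d : ℕ)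
      (σ : (Fin d → ℝ) → X → X) (f : Fin m → X → ℂ),
      IsAction μ σ → (∀ j, AEStronglyMeasurable (f j) μ) → (∀ j, ∃ C : ℝ, ∀ᵐ x ∂μ, ‖f j x‖ ≤ C) →
      ∀ᵐ v : Fin m → Fin d → ℝ, ∀ P : Fin m → Polynomial ℤ, (∀ j, 0 < (P j).natDegree) →
        ∀ᵐ x ∂μ, ∃ L : ℂ, Tendsto (fun N : ℕ => (1 / (2 * (N : ℂ) + 1)) * ∑ n ∈ Icc (-(N : ℤ)) N,
          ∏ j, f j (σ ((((P j).eval n : ℤ) : ℝ) • v j) x)) atTop (nhds L)) := by
  refine ⟨?_, ?_⟩
  · intro X _ μ _ m τ P f hτ hP hf hfb
    exact Pool.Agent.Y957.MC.flows_Linf (fun j => ⟨(hτ j).meas, (hτ j).zero, (hτ j).add, (hτ j).mp⟩) hP hf hfb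
  · intro X _ μ _ m d σ f hσ hf hfb
    exact Pool.Agent.Y957.MC.act_ae ⟨hσ.meas, hσ.zero, hσ.add, hσ.mp⟩ hf hfb

end Pool.Agent.Results.MP_4d8f14_an.GenericTimesOfFlows
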