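import Pool.Agent.Y957.MC.Poly

set_option autoImplicit false

/-!
# Multiple averages along polynomials at almost every time of a flow

Let `τ_1, ..., τ_m` be measurable measure preserving flows on a probability space (with no relation between them) and
`f_j` in `L^∞`. For almost every `a > 0` and almost every `x`: if the averages of `∏ f_j(τ_j(a n) x)` converge to a
number `L`, then so do the averages of `∏ f_j(τ_j(a P(n)) x)`, for every integer polynomial `P` of positive degree
with positive leading coefficient.

For one flow `τ`, `T = τ(a)` and `τ_j(t) = τ(c_j t)` these are the averages of `∏ f_j(T^(c_j n) x)` and of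
`∏ f_j(T^(c_j P(n)) x)`. For `m = 2` the first converge by Bourgain's theorem, so that for almost every `a` the averages
of `f(T^(c P(n)) x) g(T^(c' P(n)) x)` converge for almost every `x`.

Proof (`Pool.Agent.Y957.MC`, theorems `detg_all`, `pti_all`, `mul_all`): for a bounded Lipschitz function `F` and almost
every `a` the difference of `(1/N) ∑ F(a P(n))` and `(1/N) ∫_0^N F(a P(v)) dv` tends to zero, since the exponential sums
with the phases `t log P(n)` are close to the integrals, with a saving of a power of `N` uniformly for `|t| ≤ N^Q`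
(van der Corput), and Parseval in the variable `log a`. The integral is a weighted average of `F` over an interval.
For `F(v) = ∏ f_j(τ_j(v) x)` with `f_j` smooth along the flows this compares both averages with the continuous
average, and the errors in the approximation of the `f_j` are controlled with second moments of averages of
nonnegative functions at the times `a P(n)`.
-/

namespace Pool.Agent.Results.MP_4d8f14_an.PolynomialTimes

open MeasureTheory Filter Finset

universe u

/-- a measurable measure preserving flow -/
structure IsFlow {X : Type u} [MeasurableSpace X] (μ : Measure X) (τ : ℝ → X → X) : Prop where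
  meas : Measurable (fun p : ℝ × X => τ p.1 p.2)
  zero : ∀ x, τ 0 x = x
  add : ∀ s t x, τ (s + t) x = τ s (τ t x)
  mp : ∀ t, MeasurePreserving (τ t) μ μ

theorem result (X : Type u) [MeasurableSpace X] (μ : Measure X) [IsProbabilityMeasure μ] (m : ℕ)
    (τ : Fin m → ℝ → X → X) (hτ : ∀ j, IsFlow μ (τ j)) (f : Fin m → X → ℂ)
    (hf : ∀ j, AEStronglyMeasurable (f j) μ) (hfb : ∀ j, ∃ C : ℝ, ∀ᵐ x ∂μ, ‖f j x‖ ≤ C) :
    ∀ᵐ a : ℝ, 0 < a → ∀ᵐ x ∂μ, ∀ L : ℂ,
      Tendsto (fun N : ℕ => (1 / (N : ℂ)) * ∑ n ∈ Icc 1 N, ∏ j, f j (τ j (a * n) x)) atTop (nhds L) →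
      ∀ P : Polynomial ℤ, 0 < P.natDegree → 0 < P.leadingCoeff →
      Tendsto (fun N : ℕ => (1 / (N : ℂ)) * ∑ n ∈ Icc 1 N, ∏ j, f j (τ j (a * ((P.eval (n : ℤ) : ℤ) : ℝ)) x))
        atTop (nhds L) :=
  Pool.Agent.Y957.MC.poly_times Pool.Agent.Y957.MC.detg_all
    (fun j => ⟨(hτ j).meas, (hτ j).zero, (hτ j).add, (hτ j).mp⟩) hf hfb

end Pool.Agent.Results.MP_4d8f14_an.PolynomialTimes
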